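import Mathlib

/-!
# Products of conjugates and monomial actions
-/

set_option autoImplicit false

namespace Pool.Agent.Helper385.Stallings

universe u v w

/-- `a` is a product, in order, of conjugates of `g 0, ..., g (n-1)` in the group `G`. -/
def Dependent {G : Type u} [Group G] {n : ℕ} (a : G) (g : Fin n → G) : Prop :=
  ∃ c : Fin n → G, a = (List.ofFn fun i => c i * g i * (c i)⁻¹).prod

/-- `f` reflects dependence: if `f a` depends on the `f (g i)` in `H` then `a` depends on the
`g i` in `G`, for every number of factors. -/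
def Reflects {G : Type u} {H : Type v} [Group G] [Group H] (f : G →* H) : Prop :=
  ∀ (n : ℕ) (a : G) (g : Fin n → G), Dependent (f a) (fun i => f (g i)) → Dependent a g

theorem Reflects.comp {G : Type u} {H : Type v} {K : Type w} [Group G] [Group H] [Group K]
    {f : G →* H} {g : H →* K} (hf : Reflects f) (hg : Reflects g) : Reflects (g.comp f) := by
  intro n a x h
  exact hf n a x (hg n (f a) (fun i => f (x i)) h)

theorem Reflects.of_comp {G : Type u} {H : Type v} {K : Type w} [Group G] [Group H] [Group K]
    {f : G →* H} {g : H →* K} (h : Reflects (g.comp f)) : Reflects f := by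
  rintro n a x ⟨c, hc⟩
  refine h n a x ⟨fun i => g (c i), ?_⟩
  change g (f a) = _
  rw [hc, map_list_prod, List.map_ofFn]
  congr 2
  funext i
  simp

theorem Reflects.injective {G : Type u} {H : Type v} [Group G] [Group H] {f : G →* H}
    (hf : Reflects f) : Function.Injective f := by
  rw [injective_iff_map_eq_one]
  intro a ha
  obtain ⟨c, hc⟩ := hf 0 a Fin.elim0 ⟨Fin.elim0, by simpa using ha⟩
  simpa using hc

theorem reflects_equiv {G : Type u} {H : Type v} [Group G] [Group H] (e : G ≃* H) :
    Reflects e.toMonoidHom := by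
  rintro n a g ⟨c, hc⟩
  refine ⟨fun i => e.symm (c i), ?_⟩
  apply e.injective
  have : e a = (List.ofFn fun i => c i * e (g i) * (c i)⁻¹).prod := hc
  rw [this, map_list_prod, List.map_ofFn]
  congr 2
  funext i
  simp

/-- The criterion: `H` acts on `Ω × G`, commuting with the right multiplications of `G`, in such
a way that the elements of `G` act by left multiplication on every fibre. -/
theorem reflects_of_action {G : Type u} {H : Type v} [Group G] [Group H] (f : G →* H)
    {Ω : Type w} (o : Ω) (Ψ : H →* Equiv.Perm (Ω × G))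
    (hR : ∀ (h : H) (p : Ω × G) (x : G), Ψ h (p.1, p.2 * x) = ((Ψ h p).1, (Ψ h p).2 * x))
    (hL : ∀ (g : G) (p : Ω × G), Ψ (f g) p = (p.1, g * p.2)) : Reflects f := by
  -- one conjugate
  have key : ∀ (h : H), ∃ y : G, ∀ (g x : G), Ψ (h * f g * h⁻¹) (o, x) = (o, y * g * y⁻¹ * x) := by
    intro h
    obtain ⟨q, hq⟩ : ∃ q : Ω × G, Ψ h⁻¹ (o, 1) = q := ⟨_, rfl⟩
    refine ⟨q.2⁻¹, fun g x => ?_⟩
    have h1 : Ψ h⁻¹ (o, x) = (q.1, q.2 * x) := by
      have := hR h⁻¹ (o, 1) x
      simp only [one_mul] at this
      rw [this, hq]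
    have h2 : Ψ h q = (o, 1) := by
      rw [← hq, ← Equiv.Perm.mul_apply, ← map_mul, mul_inv_cancel, map_one]
      rfl
    rw [map_mul, map_mul, Equiv.Perm.mul_apply, Equiv.Perm.mul_apply, h1, hL]
    have h3 := hR h q (q.2⁻¹ * g * q.2 * x)
    rw [h2] at h3
    simp only [one_mul] at h3
    have h4 : (q.1, g * (q.2 * x)) = (q.1, q.2 * (q.2⁻¹ * g * q.2 * x)) := by
      congr 1; group
    rw [h4, h3]
    simp only [inv_inv]
  rintro n a g ⟨c, hc⟩
  choose y hy using key
  refine ⟨fun i => y (c i), ?_⟩
  have gen : ∀ (l : List (H × G)) (x : G),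
      Ψ (l.map (fun p => p.1 * f p.2 * p.1⁻¹)).prod (o, x)
        = (o, (l.map (fun p => y p.1 * p.2 * (y p.1)⁻¹)).prod * x) := by
    intro l
    induction l with
    | nil => intro x; simp
    | cons p l ih =>
      intro x
      rw [List.map_cons, List.prod_cons, map_mul, Equiv.Perm.mul_apply, ih, hy, List.map_cons,
        List.prod_cons]
      simp only [mul_assoc]
  have h1 := gen (List.ofFn fun i => (c i, g i)) 1
  rw [List.map_ofFn, List.map_ofFn] at h1
  have h2 : ((fun p : H × G => p.1 * f p.2 * p.1⁻¹) ∘ fun i => (c i, g i))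
      = fun i => c i * f (g i) * (c i)⁻¹ := rfl
  have h3 : ((fun p : H × G => y p.1 * p.2 * (y p.1)⁻¹) ∘ fun i => (c i, g i))
      = fun i => y (c i) * g i * (y (c i))⁻¹ := rfl
  rw [h2, h3, ← hc, hL] at h1
  simpa using congrArg Prod.snd h1

/-- Palindromic products are trivial. -/
theorem pal {G : Type u} [Group G] : ∀ (n : ℕ) (g : ℕ → G),
    ((List.range n).map fun k => g k * (g (n - 1 - k))⁻¹).prod = 1
  | 0, _ => by simp
  | 1, g => by simp
  | n + 2, g => by
    have ih := pal n (fun k => g (k + 1))
    rw [List.range_succ_eq_map, List.range_succ, List.map_append, List.map_cons, List.map_append,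
      List.map_map, List.map_map, List.prod_cons, List.prod_append]
    have h1 : (List.map ((fun k => g k * (g (n + 2 - 1 - k))⁻¹) ∘ Nat.succ) (List.range n)).prod
        = 1 := by
      rw [← ih]
      congr 1
      apply List.map_congr_left
      intro k hk
      have hk' := List.mem_range.1 hk
      simp only [Function.comp]
      congr 3
      omega
    rw [h1]
    simp

/-- The telescoping identity behind Levin's solution of positive equations. -/
theorem telescope {G : Type u} [Group G] (m : ℕ) [NeZero m] (h : ZMod m → G) (c : ZMod m) :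
    ((List.range m).map fun k : ℕ => h (k : ZMod m) * (h (c - (k : ZMod m)))⁻¹).prod = 1 := by
  have hc : c.val < m := ZMod.val_lt c
  obtain ⟨r, hr⟩ : ∃ r, m = c.val + 1 + r := ⟨m - (c.val + 1), by omega⟩
  have hsplit : List.range m = List.range (c.val + 1) ++ (List.range r).map (c.val + 1 + ·) := by
    conv_lhs => rw [hr]
    rw [List.range_add]
  rw [hsplit, List.map_append, List.prod_append, List.map_map]
  have h1 : (List.map (fun k : ℕ => h (k : ZMod m) * (h (c - (k : ZMod m)))⁻¹)
      (List.range (c.val + 1))).prod = 1 := by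
    rw [← pal (c.val + 1) (fun k => h (k : ZMod m))]
    congr 1
    apply List.map_congr_left
    intro k hk
    have hk' := List.mem_range.1 hk
    have : c - (k : ZMod m) = ((c.val + 1 - 1 - k : ℕ) : ZMod m) := by
      rw [Nat.add_sub_cancel, Nat.cast_sub (by omega), ZMod.natCast_zmod_val]
    rw [this]
  have h2 : (List.map ((fun k : ℕ => h (k : ZMod m) * (h (c - (k : ZMod m)))⁻¹) ∘
      (c.val + 1 + ·)) (List.range r)).prod = 1 := by
    rw [← pal r (fun k => h ((c.val + 1 + k : ℕ) : ZMod m))]
    congr 1
    apply List.map_congr_left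
    intro k hk
    have hk' := List.mem_range.1 hk
    simp only [Function.comp]
    have e1 : c - ((c.val + 1 + k : ℕ) : ZMod m) = ((c.val + 1 + (r - 1 - k) : ℕ) : ZMod m) := by
      have hm : ((c.val + 1 + r : ℕ) : ZMod m) = 0 := by rw [← hr]; exact ZMod.natCast_self m
      have e2 : c.val + 1 + (r - 1 - k) + (k + 1) = c.val + 1 + r := by omega
      have e3 : ((c.val + 1 + (r - 1 - k) : ℕ) : ZMod m) + ((k + 1 : ℕ) : ZMod m) = 0 := by
        rw [← Nat.cast_add, e2, hm]
      have e4 : ((c.val + 1 + (r - 1 - k) : ℕ) : ZMod m) = -((k + 1 : ℕ) : ZMod m) :=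
        eq_neg_of_add_eq_zero_left e3
      rw [e4]
      push_cast
      rw [ZMod.natCast_zmod_val]
      ring
    rw [e1]
  rw [h1, h2, one_mul]

end Pool.Agent.Helper385.Stallings
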