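import Pool.Agent.Helper385.Stallings.Positive

/-!
# A positively closed group over an arbitrary group that reflects dependence
-/

set_option autoImplicit false

namespace Pool.Agent.Helper385.Stallings

universe u v w

section Abstract

variable {X : Type v} {A : Type u} [Group A] (act : A →* Equiv.Perm X) {m : ℕ}
  (j : X → ZMod m) (σ : Equiv.Perm X)

/-- Levin's solution, for an action on any set. -/
def gLevin (c : ZMod m → A) (hjσ : ∀ p, j (σ p) = j p + 1) (hj : ∀ a p, j (act a p) = j p) :
    Equiv.Perm X where
  toFun p := act (c (j p))⁻¹ (σ p)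
  invFun q := σ.symm (act (c (j q - 1)) q)
  left_inv p := by
    have h : j (act (c (j p))⁻¹ (σ p)) - 1 = j p := by rw [hj, hjσ]; ring
    change σ.symm (act (c (j (act (c (j p))⁻¹ (σ p)) - 1)) (act (c (j p))⁻¹ (σ p))) = p
    have h' : act (c (j p)) (act (c (j p))⁻¹ (σ p)) = σ p := by
      rw [← Equiv.Perm.mul_apply, ← map_mul, mul_inv_cancel, map_one, Equiv.Perm.one_apply]
    rw [h, h', Equiv.symm_apply_apply]
  right_inv q := by
    have h : j (σ.symm (act (c (j q - 1)) q)) = j q - 1 := by
      have := hjσ (σ.symm (act (c (j q - 1)) q))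
      rw [Equiv.apply_symm_apply, hj] at this
      exact eq_sub_of_add_eq this.symm
    change act (c (j (σ.symm (act (c (j q - 1)) q))))⁻¹ (σ (σ.symm (act (c (j q - 1)) q))) = q
    rw [h, Equiv.apply_symm_apply, ← Equiv.Perm.mul_apply, ← map_mul, inv_mul_cancel, map_one,
      Equiv.Perm.one_apply]

theorem gLevin_apply (c : ZMod m → A) (hjσ : ∀ p, j (σ p) = j p + 1)
    (hj : ∀ a p, j (act a p) = j p) (p : X) :
    gLevin act j σ c hjσ hj p = act (c (j p))⁻¹ (σ p) := rfl

theorem gLevin_suffix (c : ZMod m → A) (hjσ : ∀ p, j (σ p) = j p + 1)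
    (hj : ∀ a p, j (act a p) = j p) (hσ : ∀ a p, σ (act a p) = act a (σ p))
    (l' : List A) (p : X) :
    (l'.map fun g => act g * gLevin act j σ c hjσ hj).prod p
      = act (((List.range l'.length).map fun k : ℕ =>
            l'.getD k 1 * (c (j p + ((l'.length - 1 - k : ℕ) : ZMod m)))⁻¹).prod)
          ((σ ^ l'.length) p) := by
  have hjk : ∀ (k : ℕ) (p : X), j ((σ ^ k) p) = j p + (k : ZMod m) := by
    intro k
    induction k with
    | zero => intro p; simp
    | succ k ih =>
      intro p
      rw [pow_succ', Equiv.Perm.mul_apply, hjσ, ih]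
      push_cast
      ring
  induction l' with
  | nil => simp
  | cons g l' ih =>
    rw [List.map_cons, List.prod_cons, Equiv.Perm.mul_apply, Equiv.Perm.mul_apply, ih,
      gLevin_apply, hj, hjk, hσ, List.length_cons, List.range_succ_eq_map, List.map_cons,
      List.prod_cons, List.map_map, ← Equiv.Perm.mul_apply σ, ← pow_succ',
      ← Equiv.Perm.mul_apply, ← Equiv.Perm.mul_apply, ← map_mul, ← map_mul]
    simp only [List.getD_cons_zero, Nat.add_sub_cancel, Nat.sub_zero, mul_assoc]
    congr 6
    funext k
    simp only [Function.comp, Nat.succ_eq_add_one, List.getD_cons_succ]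
    have : l'.length - 1 - k = l'.length - (k + 1) := by omega
    rw [this]

end Abstract

theorem gLevin_solves {X : Type v} {A : Type u} [Group A] (act : A →* Equiv.Perm X)
    (l : List A) {m : ℕ} (hlm : l.length = m) (hl : l ≠ []) (j : X → ZMod m) (σ : Equiv.Perm X)
    (hjσ : ∀ p, j (σ p) = j p + 1) (hj : ∀ a p, j (act a p) = j p)
    (hσ : ∀ a p, σ (act a p) = act a (σ p)) (hm : σ ^ m = 1) :
    (l.map fun g => act g * gLevin act j σ (fun i => l.getD i.val 1) hjσ hj).prod = 1 := by
  subst hlm
  have : NeZero l.length := ⟨by simpa using hl⟩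
  apply Equiv.ext
  intro p
  rw [gLevin_suffix act j σ _ hjσ hj hσ, hm]
  have h1 : ((List.range l.length).map fun k : ℕ =>
      l.getD k 1 * (l.getD (j p + ((l.length - 1 - k : ℕ) : ZMod l.length)).val 1)⁻¹)
      = (List.range l.length).map fun k : ℕ =>
        l.getD (k : ZMod l.length).val 1 *
          (l.getD ((j p - 1) - (k : ZMod l.length)).val 1)⁻¹ := by
    apply List.map_congr_left
    intro k hk
    have hk' := List.mem_range.1 hk
    have e1 : (k : ZMod l.length).val = k := ZMod.val_natCast_of_lt hk'
    have e2 : j p + ((l.length - 1 - k : ℕ) : ZMod l.length)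
        = (j p - 1) - (k : ZMod l.length) := by
      have e3 : ((l.length - 1 - k : ℕ) : ZMod l.length) + ((k + 1 : ℕ) : ZMod l.length) = 0 := by
        rw [← Nat.cast_add]
        have : l.length - 1 - k + (k + 1) = l.length := by omega
        rw [this]; exact ZMod.natCast_self _
      rw [eq_neg_of_add_eq_zero_left e3]
      push_cast
      ring
    simp only [e1, e2]
  have h2 : ((List.range l.length).map fun k : ℕ =>
        l.getD (k : ZMod l.length).val 1 *
          (l.getD ((j p - 1) - (k : ZMod l.length)).val 1)⁻¹).prod = 1 :=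
    telescope l.length (fun i : ZMod l.length => l.getD i.val 1) (j p - 1)
  rw [h1, h2]
  simp

/-! ### The group -/

/-- The product of all the finite cyclic groups. -/
abbrev Om : Type := (m : ℕ) → ZMod (m + 1)

/-- The sequence with the coordinates of `ω` before `n` and those of `ω'` from `n` on. -/
def mix (n : ℕ) (ω ω' : ℕ → Om) : ℕ → Om := fun i => if i < n then ω i else ω' i

variable (G : Type u) [Group G]

/-- The permutations of `(ℕ → Om) × G` that commute with the right multiplications of `G` and
only see the first `n` coordinates. -/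
def level (n : ℕ) : Subgroup (Equiv.Perm ((ℕ → Om) × G)) where
  carrier := {π | (∀ (p : (ℕ → Om) × G) (x : G), π (p.1, p.2 * x) = ((π p).1, (π p).2 * x)) ∧
    ∀ (p : (ℕ → Om) × G) (ω' : ℕ → Om),
      π (mix n p.1 ω', p.2) = (mix n (π p).1 ω', (π p).2)}
  one_mem' := ⟨fun _ _ => rfl, fun _ _ => rfl⟩
  mul_mem' := by
    intro a b ha hb
    constructor
    · intro p x
      rw [Equiv.Perm.mul_apply, Equiv.Perm.mul_apply, hb.1, ha.1]
    · intro p x
      rw [Equiv.Perm.mul_apply, Equiv.Perm.mul_apply, hb.2, ha.2]
  inv_mem' := by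
    intro a ha
    constructor
    · intro p x
      rw [Equiv.Perm.inv_eq_iff_eq, ha.1]
      simp
    · intro p x
      rw [Equiv.Perm.inv_eq_iff_eq, ha.2]
      simp

variable {G}

theorem level_fix {n : ℕ} {π : Equiv.Perm ((ℕ → Om) × G)} (h : π ∈ level G n)
    (p : (ℕ → Om) × G) (i : ℕ) (hi : n ≤ i) : (π p).1 i = p.1 i := by
  have h1 := h.2 p p.1
  have h2 : mix n p.1 p.1 = p.1 := by
    funext i
    simp [mix]
  rw [h2] at h1
  have h3 := congrArg (fun q : (ℕ → Om) × G => q.1 i) h1
  simp only [mix] at h3
  rw [if_neg (by omega)] at h3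
  exact h3

theorem level_succ {n : ℕ} {π : Equiv.Perm ((ℕ → Om) × G)} (h : π ∈ level G n) :
    π ∈ level G (n + 1) := by
  refine ⟨h.1, fun p ω' => ?_⟩
  have h1 : mix (n + 1) p.1 ω' = mix n p.1 (mix (n + 1) p.1 ω') := by
    funext i
    simp only [mix]
    split_ifs <;> first | rfl | omega
  rw [h1, h.2]
  refine Prod.ext ?_ rfl
  funext i
  simp only [mix]
  have h2 := level_fix h p i
  split_ifs with h3 h4 h4
  · rfl
  · omega
  · exact (h2 (by omega)).symm
  · rfl

theorem level_mono {n n' : ℕ} (hn : n ≤ n') {π : Equiv.Perm ((ℕ → Om) × G)}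
    (h : π ∈ level G n) : π ∈ level G n' := by
  induction n', hn using Nat.le_induction with
  | base => exact h
  | succ k _ ih => exact level_succ ih

variable (G)

/-- The union of the groups `level G n`. -/
def limitGroup : Subgroup (Equiv.Perm ((ℕ → Om) × G)) where
  carrier := {π | ∃ n, π ∈ level G n}
  one_mem' := ⟨0, one_mem _⟩
  mul_mem' := by
    rintro a b ⟨n, ha⟩ ⟨n', hb⟩
    exact ⟨max n n', mul_mem (level_mono (le_max_left _ _) ha) (level_mono (le_max_right _ _) hb)⟩
  inv_mem' := by
    rintro a ⟨n, ha⟩
    exact ⟨n, inv_mem ha⟩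

/-- The embedding of `G` in the union. -/
def limitIncl : G →* limitGroup G where
  toFun g := ⟨{ toFun := fun p => (p.1, g * p.2)
                invFun := fun p => (p.1, g⁻¹ * p.2)
                left_inv := fun p => by simp
                right_inv := fun p => by simp },
      0, ⟨fun p x => by simp [mul_assoc], fun p ω' => by simp⟩⟩
  map_one' := by
    apply Subtype.ext
    apply Equiv.ext
    intro p
    simp
  map_mul' a b := by
    apply Subtype.ext
    apply Equiv.ext
    intro p
    simp [mul_assoc]

theorem limitIncl_reflects : Reflects (limitIncl G) := by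
  refine reflects_of_action (limitIncl G) (Ω := ℕ → Om) (fun _ => 0) (limitGroup G).subtype ?_ ?_
  · rintro ⟨π, n, hn⟩ p x
    exact hn.1 p x
  · intro g p
    rfl

variable {G}

/-- The shift of one coordinate by a given amount. -/
def coordShift (n : ℕ) (e : Om) : Equiv.Perm ((ℕ → Om) × G) where
  toFun p := (Function.update p.1 n (p.1 n + e), p.2)
  invFun p := (Function.update p.1 n (p.1 n - e), p.2)
  left_inv p := by simp
  right_inv p := by simp

omit [Group G] in
theorem coordShift_apply (n : ℕ) (e : Om) (p : (ℕ → Om) × G) :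
    coordShift n e p = (Function.update p.1 n (p.1 n + e), p.2) := rfl

theorem coordShift_pow (n : ℕ) (e : Om) (k : ℕ) (p : (ℕ → Om) × G) :
    ((coordShift n e) ^ k) p = (Function.update p.1 n (p.1 n + k • e), p.2) := by
  induction k with
  | zero => simp
  | succ k ih =>
    rw [pow_succ', Equiv.Perm.mul_apply, ih, coordShift_apply]
    simp [add_smul, add_assoc]

theorem level_comm {n : ℕ} {π : Equiv.Perm ((ℕ → Om) × G)} (h : π ∈ level G n) (e : Om)
    (p : (ℕ → Om) × G) : coordShift n e (π p) = π (coordShift n e p) := by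
  have h1 : coordShift n e p = (mix n p.1 (Function.update p.1 n (p.1 n + e)), p.2) := by
    rw [coordShift_apply]
    refine Prod.ext ?_ rfl
    funext i
    simp only [mix]
    split_ifs with hi
    · rw [Function.update_of_ne (by omega)]
    · rfl
  rw [h1, h.2, coordShift_apply]
  refine Prod.ext ?_ rfl
  funext i
  simp only [mix]
  rcases lt_trichotomy i n with hi | hi | hi
  · rw [if_pos hi, Function.update_of_ne (by omega)]
  · subst hi
    rw [if_neg (by omega), Function.update_self, Function.update_self, level_fix h p i le_rfl]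
  · rw [if_neg (by omega), Function.update_of_ne (by omega), Function.update_of_ne (by omega),
      level_fix h p i hi.le]

theorem coordShift_level (n : ℕ) (e : Om) : (coordShift n e : Equiv.Perm ((ℕ → Om) × G))
    ∈ level G (n + 1) := by
  refine ⟨fun p x => rfl, fun p ω' => ?_⟩
  rw [coordShift_apply, coordShift_apply]
  refine Prod.ext ?_ rfl
  funext i
  change Function.update (mix (n + 1) p.1 ω') n ((mix (n + 1) p.1 ω') n + e) i
    = mix (n + 1) (Function.update p.1 n (p.1 n + e)) ω' i
  rcases lt_trichotomy i n with hi | hi | hi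
  · rw [Function.update_of_ne (by omega)]
    simp only [mix]
    rw [if_pos (by omega), if_pos (by omega), Function.update_of_ne (by omega)]
  · subst hi
    rw [Function.update_self]
    simp only [mix]
    rw [if_pos (by omega), if_pos (by omega), Function.update_self]
  · rw [Function.update_of_ne (by omega)]
    simp only [mix]
    rw [if_neg (by omega), if_neg (by omega)]

theorem solve_level (n m' : ℕ) (l : List (level G n)) (hm : l.length = m' + 1) :
    ∃ t ∈ level G (n + 1), (l.map fun g : level G n => (g : Equiv.Perm ((ℕ → Om) × G)) * t).prod = 1 := by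
  have hl : l ≠ [] := by
    rintro rfl
    simp at hm
  let e : Om := Pi.single m' 1
  let σ : Equiv.Perm ((ℕ → Om) × G) := coordShift n e
  let j : (ℕ → Om) × G → ZMod (m' + 1) := fun p => p.1 n m'
  let act : level G n →* Equiv.Perm ((ℕ → Om) × G) := (level G n).subtype
  have hjσ : ∀ p, j (σ p) = j p + 1 := by
    intro p
    change (Function.update p.1 n (p.1 n + e)) n m' = p.1 n m' + 1
    rw [Function.update_self, Pi.add_apply]
    change p.1 n m' + (Pi.single m' 1 : Om) m' = p.1 n m' + 1
    rw [Pi.single_eq_same]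
  have hj : ∀ (a : level G n) (p), j (act a p) = j p := by
    intro a p
    change ((a : Equiv.Perm ((ℕ → Om) × G)) p).1 n m' = p.1 n m'
    rw [level_fix a.2 p n le_rfl]
  have hσ : ∀ (a : level G n) (p), σ (act a p) = act a (σ p) := fun a p => level_comm a.2 e p
  have hm1 : σ ^ (m' + 1) = 1 := by
    apply Equiv.ext
    intro p
    rw [coordShift_pow]
    have he : (m' + 1) • e = 0 := by
      funext i
      by_cases hi : i = m'
      · subst hi
        have : ((i + 1) • e) i = (((i + 1 : ℕ)) : ZMod (i + 1)) := by
          simp [e]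
        rw [this]
        exact ZMod.natCast_self (i + 1)
      · simp [e, Pi.single_eq_of_ne hi]
    rw [he, add_zero, Function.update_eq_self]
    rfl
  refine ⟨gLevin act j σ (fun i => l.getD i.val 1) hjσ hj, ⟨?_, ?_⟩,
    gLevin_solves act l hm hl j σ hjσ hj hσ hm1⟩
  · intro p x
    rw [gLevin_apply, gLevin_apply]
    exact ((l.getD (j p).val 1)⁻¹).2.1 (σ p) x
  · intro p ω'
    have h1 : j (mix (n + 1) p.1 ω', p.2) = j p := by
      change (mix (n + 1) p.1 ω') n m' = p.1 n m'
      rw [mix, if_pos (Nat.lt_succ_self n)]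
    have h2 : σ (mix (n + 1) p.1 ω', p.2) = (mix (n + 1) (σ p).1 ω', (σ p).2) :=
      (coordShift_level n e).2 p ω'
    rw [gLevin_apply, gLevin_apply, h1, h2]
    exact (level_succ ((l.getD (j p).val 1)⁻¹).2).2 (σ p) ω'

/-- Every positive equation over `limitGroup G` has a solution in `limitGroup G`. -/
theorem limitGroup_closed (l : List (limitGroup G)) (hl : l ≠ []) :
    ∃ t : limitGroup G, (l.map fun d => d * t).prod = 1 := by
  have h1 : ∀ l : List (limitGroup G), ∃ (n : ℕ) (l' : List (level G n)),
      l'.map (fun x : level G n => (x : Equiv.Perm ((ℕ → Om) × G)))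
        = l.map (fun x : limitGroup G => (x : Equiv.Perm ((ℕ → Om) × G))) := by
    intro l
    induction l with
    | nil => exact ⟨0, [], rfl⟩
    | cons d l ih =>
      obtain ⟨n, l', h⟩ := ih
      obtain ⟨n', hd⟩ := d.2
      refine ⟨max n n', ⟨d, level_mono (le_max_right _ _) hd⟩ ::
        l'.map (fun x : level G n => ⟨x, level_mono (le_max_left _ _) x.2⟩), ?_⟩
      rw [List.map_cons, List.map_cons, List.map_map, ← h]
      rfl
  obtain ⟨n, l', h⟩ := h1 l
  have hlen : l'.length = l.length := by
    have := congrArg List.length h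
    simpa using this
  obtain ⟨m', hm'⟩ : ∃ m', l.length = m' + 1 :=
    Nat.exists_eq_succ_of_ne_zero (by simpa using hl)
  obtain ⟨t, ht, hprod⟩ := solve_level n m' l' (hlen.trans hm')
  refine ⟨⟨t, n + 1, ht⟩, ?_⟩
  apply Subtype.ext
  rw [Subgroup.val_list_prod, List.map_map]
  have h2 : (l.map (Subtype.val ∘ fun d : limitGroup G => d * ⟨t, n + 1, ht⟩))
      = (l.map (fun x : limitGroup G => (x : Equiv.Perm ((ℕ → Om) × G)))).map
          (fun x => x * t) := by
    rw [List.map_map]
    rfl
  rw [h2, ← h, List.map_map]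
  exact hprod

theorem exists_positively_closed (G : Type u) [Group G] :
    ∃ (D : Type u) (_ : Group D) (f : G →* D), Reflects f ∧
      ∀ l : List D, l ≠ [] → ∃ t : D, (l.map fun d => d * t).prod = 1 :=
  ⟨limitGroup G, inferInstance, limitIncl G, limitIncl_reflects G, limitGroup_closed⟩

end Pool.Agent.Helper385.Stallings
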