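import Pool.Agent.Helper385.Stallings.Basic

/-!
# Monomial permutations and positive equations
-/

set_option autoImplicit false

namespace Pool.Agent.Helper385.Stallings

universe u v w

/-- The monomial permutations of `Ω × G`: the permutations that commute with the right
multiplications by elements of `G`. (This is the unrestricted permutational wreath product of
`G` with the symmetric group of `Ω`.) -/
def monomial (Ω : Type w) (G : Type u) [Group G] : Subgroup (Equiv.Perm (Ω × G)) where
  carrier := {π | ∀ (p : Ω × G) (x : G), π (p.1, p.2 * x) = ((π p).1, (π p).2 * x)}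
  one_mem' := fun _ _ => rfl
  mul_mem' := by
    intro a b ha hb p x
    rw [Equiv.Perm.mul_apply, Equiv.Perm.mul_apply, hb, ha]
  inv_mem' := by
    intro a ha p x
    rw [Equiv.Perm.inv_eq_iff_eq, ha]
    simp

/-- The diagonal embedding: `g` multiplies every fibre by `g` on the left. -/
def diag (Ω : Type w) (G : Type u) [Group G] : G →* monomial Ω G where
  toFun g := ⟨{ toFun := fun p => (p.1, g * p.2)
                invFun := fun p => (p.1, g⁻¹ * p.2)
                left_inv := fun p => by simp
                right_inv := fun p => by simp }, fun p x => by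
      simp [mul_assoc]⟩
  map_one' := by
    apply Subtype.ext
    apply Equiv.ext
    intro p
    simp
  map_mul' a b := by
    apply Subtype.ext
    apply Equiv.ext
    intro p
    simp [mul_assoc]

theorem diag_apply {Ω : Type w} {G : Type u} [Group G] (g : G) (p : Ω × G) :
    (diag Ω G g : Equiv.Perm (Ω × G)) p = (p.1, g * p.2) := rfl

/-- The criterion: if the diagonal embedding of `G` in the monomial permutations of `Ω × G`
extends to `H` then `G → H` reflects dependence. -/
theorem reflects_of_monomial {G : Type u} {H : Type v} [Group G] [Group H] (f : G →* H)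
    {Ω : Type w} (hΩ : Nonempty Ω) (Ψ : H →* monomial Ω G) (hΨ : Ψ.comp f = diag Ω G) :
    Reflects f := by
  obtain ⟨o⟩ := hΩ
  refine reflects_of_action f o ((monomial Ω G).subtype.comp Ψ) ?_ ?_
  · intro h p x
    exact (Ψ h).2 p x
  · intro g p
    have := DFunLike.congr_fun hΨ g
    have h2 : Ψ (f g) = diag Ω G g := this
    change (Ψ (f g) : Equiv.Perm (Ω × G)) p = _
    rw [h2]
    rfl

section Levin

variable {G : Type u} [Group G]

/-- The coefficient with index `j`. -/
def coef (l : List G) (m : ℕ) (j : ZMod m) : G := l.getD j.val 1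

/-- Levin's solution, as a permutation. -/
def levinPerm (l : List G) (m : ℕ) : Equiv.Perm (ZMod m × G) where
  toFun p := (p.1 + 1, (coef l m p.1)⁻¹ * p.2)
  invFun p := (p.1 - 1, coef l m (p.1 - 1) * p.2)
  left_inv p := by simp
  right_inv p := by simp

/-- Levin's solution, as a monomial permutation. -/
def levin (l : List G) (m : ℕ) : monomial (ZMod m) G :=
  ⟨levinPerm l m, fun p x => by simp [levinPerm, mul_assoc]⟩

theorem levin_apply (l : List G) (m : ℕ) (p : ZMod m × G) :
    (levin l m : Equiv.Perm (ZMod m × G)) p = (p.1 + 1, (coef l m p.1)⁻¹ * p.2) := rfl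

theorem levin_suffix (l : List G) (m : ℕ) (l' : List G) (ω : ZMod m) (x : G) :
    ((l'.map fun g => diag (ZMod m) G g * levin l m).prod : Equiv.Perm (ZMod m × G)) (ω, x)
      = (ω + (l'.length : ZMod m),
          ((List.range l'.length).map fun k : ℕ =>
            l'.getD k 1 * (coef l m (ω + ((l'.length - 1 - k : ℕ) : ZMod m)))⁻¹).prod * x) := by
  induction l' with
  | nil => simp
  | cons g l' ih =>
    rw [List.map_cons, List.prod_cons, Subgroup.coe_mul, Subgroup.coe_mul, Equiv.Perm.mul_apply,
      Equiv.Perm.mul_apply, ih, levin_apply, diag_apply, List.length_cons,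
      List.range_succ_eq_map, List.map_cons, List.prod_cons, List.map_map]
    apply Prod.ext
    · simp [add_assoc]
    · simp only [List.getD_cons_zero, Nat.add_sub_cancel, Nat.sub_zero, mul_assoc]
      congr 4
      apply List.map_congr_left
      intro k hk
      simp only [Function.comp, Nat.succ_eq_add_one, List.getD_cons_succ]
      have : l'.length - 1 - k = l'.length - (k + 1) := by omega
      rw [this]

/-- Levin: `g 0 * T * g 1 * T * ... * g (m-1) * T = 1` for the diagonal coefficients. -/
theorem levin_solves (l : List G) (hl : l ≠ []) :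
    (l.map fun g => diag (ZMod l.length) G g * levin l l.length).prod = 1 := by
  have : NeZero l.length := ⟨by simpa using hl⟩
  apply Subtype.ext
  apply Equiv.ext
  rintro ⟨ω, x⟩
  rw [levin_suffix]
  have h1 : ((List.range l.length).map fun k : ℕ =>
      l.getD k 1 * (coef l l.length (ω + ((l.length - 1 - k : ℕ) : ZMod l.length)))⁻¹)
      = (List.range l.length).map fun k : ℕ =>
        coef l l.length (k : ZMod l.length) *
          (coef l l.length ((ω - 1) - (k : ZMod l.length)))⁻¹ := by
    apply List.map_congr_left
    intro k hk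
    have hk' := List.mem_range.1 hk
    have e1 : coef l l.length (k : ZMod l.length) = l.getD k 1 := by
      rw [coef, ZMod.val_natCast_of_lt hk']
    have e2 : ω + ((l.length - 1 - k : ℕ) : ZMod l.length) = (ω - 1) - (k : ZMod l.length) := by
      have e3 : ((l.length - 1 - k : ℕ) : ZMod l.length) + ((k + 1 : ℕ) : ZMod l.length) = 0 := by
        rw [← Nat.cast_add]
        have : l.length - 1 - k + (k + 1) = l.length := by omega
        rw [this]; exact ZMod.natCast_self _
      rw [eq_neg_of_add_eq_zero_left e3]
      push_cast
      ring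
    rw [e1, e2]
  rw [h1, telescope]
  simp

end Levin

/-! ### Adjoining a solution of a positive equation to a group -/

/-- The left side `g 0 * t * g 1 * t * ... * g (m-1) * t` of a positive equation over `G`. -/
def posWord {G : Type u} [Group G] (l : List G) : Monoid.Coprod G (Multiplicative ℤ) :=
  (l.map fun g => Monoid.Coprod.inl g * Monoid.Coprod.inr (Multiplicative.ofAdd 1)).prod

/-- The group obtained from `G` by adjoining a solution `t` of the positive equation
`g 0 * t * g 1 * t * ... * g (m-1) * t = 1`. -/
abbrev PosExt {G : Type u} [Group G] (l : List G) : Type u :=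
  Monoid.Coprod G (Multiplicative ℤ) ⧸ Subgroup.normalClosure {posWord l}

/-- The natural map from `G` to the extended group. -/
def PosExt.incl {G : Type u} [Group G] (l : List G) : G →* PosExt l :=
  (QuotientGroup.mk' (Subgroup.normalClosure {posWord l})).comp Monoid.Coprod.inl

theorem PosExt.reflects {G : Type u} [Group G] (l : List G) (hl : l ≠ []) :
    Reflects (PosExt.incl l) := by
  have : NeZero l.length := ⟨by simpa using hl⟩
  let Ψ₀ : Monoid.Coprod G (Multiplicative ℤ) →* monomial (ZMod l.length) G :=
    Monoid.Coprod.lift (diag (ZMod l.length) G) (zpowersHom _ (levin l l.length))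
  have h0 : Ψ₀ (posWord l) = 1 := by
    rw [posWord, map_list_prod, List.map_map]
    have : (Ψ₀ ∘ fun g => Monoid.Coprod.inl g * Monoid.Coprod.inr (Multiplicative.ofAdd (1 : ℤ)))
        = fun g => diag (ZMod l.length) G g * levin l l.length := by
      funext g
      simp [Ψ₀]
    rw [this, levin_solves l hl]
  have h1 : Subgroup.normalClosure {posWord l} ≤ Ψ₀.ker := by
    apply Subgroup.normalClosure_le_normal
    rw [Set.singleton_subset_iff]
    exact h0
  refine reflects_of_monomial (PosExt.incl l) ⟨(0 : ZMod l.length)⟩
    (QuotientGroup.lift _ Ψ₀ (fun x hx => h1 hx)) ?_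
  ext1 g
  simp [PosExt.incl, Ψ₀]

/-! ### Positive endomorphisms of free groups -/

/-- The endomorphism of a free group that fixes all the generators except the one with index
`i`, which it sends to `u 0 * x i * u 1 * x i * ... * u (m-1) * x i`. -/
noncomputable def posEndo {α : Type u} (i : α) (l : List (FreeGroup α)) : FreeGroup α →* FreeGroup α :=
  open scoped Classical in
  FreeGroup.lift fun j => if j = i then (l.map fun x => x * FreeGroup.of i).prod else FreeGroup.of j

theorem posEndo_reflects {α : Type u} (i : α) (l : List (FreeGroup α)) (hl : l ≠ [])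
    (hmem : ∀ x ∈ l, x ∈ Subgroup.closure (FreeGroup.of '' {j | j ≠ i})) :
    Reflects (posEndo i l) := by
  classical
  obtain ⟨x0, tl, rfl⟩ := List.exists_cons_of_ne_nil hl
  let l' : List (FreeGroup α) := ((FreeGroup.of i)⁻¹ * x0) :: tl
  have hl' : l' ≠ [] := by simp [l']
  let Ω := ZMod l'.length
  have : NeZero l'.length := ⟨by simp [l']⟩
  let T : monomial Ω (FreeGroup α) := levin l' l'.length
  have hsol : ((x0 :: tl).map fun x => diag Ω (FreeGroup α) x * T).prod
      = diag Ω (FreeGroup α) (FreeGroup.of i) := by
    have h := levin_solves l' hl'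
    rw [List.map_cons, List.prod_cons, map_mul, map_inv, mul_assoc, mul_assoc] at h
    have h' := inv_mul_eq_one.1 h
    rw [List.map_cons, List.prod_cons, mul_assoc]
    exact h'.symm
  let Ψ : FreeGroup α →* monomial Ω (FreeGroup α) :=
    FreeGroup.lift fun j => if j = i then T else diag Ω (FreeGroup α) (FreeGroup.of j)
  have hcl : ∀ x ∈ Subgroup.closure (FreeGroup.of '' {j : α | j ≠ i}),
      Ψ x = diag Ω (FreeGroup α) x := by
    intro x hx
    have : Subgroup.closure (FreeGroup.of '' {j : α | j ≠ i})
        ≤ MonoidHom.eqLocus Ψ (diag Ω (FreeGroup α)) := by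
      rw [Subgroup.closure_le]
      rintro _ ⟨j, hj, rfl⟩
      have hj' : j ≠ i := hj
      change Ψ (FreeGroup.of j) = diag Ω (FreeGroup α) (FreeGroup.of j)
      simp [Ψ, hj']
    exact this hx
  refine reflects_of_monomial (posEndo i (x0 :: tl)) ⟨(0 : ZMod l'.length)⟩ Ψ ?_
  apply FreeGroup.ext_hom
  intro j
  by_cases hj : j = i
  · subst hj
    have e1 : posEndo j (x0 :: tl) (FreeGroup.of j)
        = ((x0 :: tl).map fun x => x * FreeGroup.of j).prod := by
      simp [posEndo]
    rw [MonoidHom.comp_apply, e1, map_list_prod, List.map_map, ← hsol]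
    congr 1
    apply List.map_congr_left
    intro x hx
    have e2 : Ψ (FreeGroup.of j) = T := by simp [Ψ]
    simp only [Function.comp]
    rw [map_mul, hcl x (hmem x hx), e2]
  · have e1 : posEndo i (x0 :: tl) (FreeGroup.of j) = FreeGroup.of j := by
      simp [posEndo, hj]
    rw [MonoidHom.comp_apply, e1]
    simp [Ψ, hj]
    rfl

end Pool.Agent.Helper385.Stallings
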